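import Pool.Agent.H44.P4.Claim

set_option autoImplicit false

/-!
The minimal cylinder part of note 7046 (MP_a46c6f_co): steps (0) - (5).
-/

namespace Pool.Agent.H20.P3

open Classical
open Pool.Agent.H44.P4

variable {V : Type}

theorem pairs_pos {A : V → V → Prop} {C : Finset V} (hP : Pairs A C) {w : V} (hw : w ∈ C) :
    Pairs A (C.filter (fun y => A y w)) := by
  intro u hu v hv h1 h2
  obtain ⟨huC, huw⟩ := Finset.mem_filter.1 hu
  obtain ⟨hvC, hvw⟩ := Finset.mem_filter.1 hv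
  obtain ⟨g, hg, m1, m2, m3, m4⟩ := hP u huC v hvC h1 h2
  refine ⟨g, Finset.mem_filter.2 ⟨hg, (m4 w hw (by tauto)).2 huw⟩, m1, m2, m3, ?_⟩
  intro y hy
  exact m4 y (Finset.mem_filter.1 hy).1

theorem pairs_neg {A : V → V → Prop} {C : Finset V} (hP : Pairs A C) {w : V} (hw : w ∈ C) :
    Pairs A (C.filter (fun y => ¬ A y w)) := by
  intro u hu v hv h1 h2
  obtain ⟨huC, huw⟩ := Finset.mem_filter.1 hu
  obtain ⟨hvC, hvw⟩ := Finset.mem_filter.1 hv
  obtain ⟨g, hg, m1, m2, m3, m4⟩ := hP u huC v hvC h1 h2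
  refine ⟨g, Finset.mem_filter.2 ⟨hg, fun h => huw ((m4 w hw (by tauto)).1 h)⟩, m1, m2, m3, ?_⟩
  intro y hy
  exact m4 y (Finset.mem_filter.1 hy).1

/-- a component that contains a vertex which sees something has a full vertex -/
theorem comp_full {A : V → V → Prop} (hs : ∀ x y, A x y → A y x) {D K : Finset V}
    (hK : Comp A D K) (hF : Free A D) (hP : Pairs A D) {p : V} (hp : p ∈ K)
    (hy : ∃ y ∈ D, A p y) : ∃ f ∈ K, ∀ y ∈ K, A f y := by
  refine hK.full hs hF hP ?_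
  intro x hx
  by_contra hno
  push Not at hno
  have h1 : ({x} : Finset V) = K := by
    apply hK.min
    · simpa using hx
    · simp
    · intro a ha b hb _
      rw [Finset.mem_singleton] at ha
      subst ha
      exact hno b hb
  rw [← h1, Finset.mem_singleton] at hp
  subst hp
  obtain ⟨y, hyD, hpy⟩ := hy
  exact hno y hyD hpy

section core

variable {A : V → V → Prop} {C : Finset V}

/-- step (1) -/
theorem step1 (hs : ∀ x y, A x y → A y x) (hP : Pairs A C)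
    (h0 : ∀ w ∈ C, (∃ y ∈ C, A y w) → Free A (C.filter (fun y => A y w)))
    {w : V} (hw : w ∈ C) (hww : ¬ A w w) (hne : ∃ y ∈ C, A w y) :
    ∃ x ∈ C, A x x ∧ A x w ∧ ∀ y ∈ C, A w y → A x y := by
  obtain ⟨y0, hy0, hwy0⟩ := hne
  have hF := h0 w hw ⟨y0, hy0, hs _ _ hwy0⟩
  obtain ⟨x, hx, hcon⟩ := const_vertex _ A hs (C.filter (fun y => A y w)) rfl
    ⟨y0, Finset.mem_filter.2 ⟨hy0, hs _ _ hwy0⟩⟩ hF (pairs_pos hP hw)
  obtain ⟨hxC, hxw⟩ := Finset.mem_filter.1 hx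
  rcases hcon with hcon | hcon
  · exfalso
    have hxx := hcon x hx
    obtain ⟨g, hg, m1, m2, m3, m4⟩ := hP w hw x hxC (by tauto)
      (by have := hs _ _ hxw; tauto)
    have hgw : A g w := by tauto
    have hgx : A g x := by tauto
    exact hcon g (Finset.mem_filter.2 ⟨hg, hgw⟩) (hs _ _ hgx)
  · refine ⟨x, hxC, hcon x hx, hxw, ?_⟩
    intro y hy hwy
    exact hcon y (Finset.mem_filter.2 ⟨hy, hs _ _ hwy⟩)

/-- step (2) -/
theorem step2 (hs : ∀ x y, A x y → A y x) (hP : Pairs A C)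
    (h0 : ∀ w ∈ C, (∃ y ∈ C, A y w) → Free A (C.filter (fun y => A y w)))
    {b c : V} (hb : b ∈ C) (hc : c ∈ C) (hcc : A c c) (hbc : A b c)
    (hne : ∃ y ∈ C, A y b ∧ ¬ A y c) :
    ∃ a ∈ C, A a b ∧ ¬ A a c ∧ ¬ A a a ∧ ∀ y ∈ C, A y b → ¬ A y c → ¬ A a y := by
  obtain ⟨y0, hy0, hy0b, hy0c⟩ := hne
  have hF := h0 b hb ⟨y0, hy0, hy0b⟩
  have hcN : c ∈ C.filter (fun y => A y b) := Finset.mem_filter.2 ⟨hc, hs _ _ hbc⟩
  have hP2 := pairs_neg (pairs_pos hP hb) hcN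
  have hmem : ∀ y, y ∈ (C.filter (fun y => A y b)).filter (fun y => ¬ A y c) ↔
      (y ∈ C ∧ A y b) ∧ ¬ A y c := by
    intro y
    rw [Finset.mem_filter, Finset.mem_filter]
  obtain ⟨a, ha, hcon⟩ := const_vertex _ A hs
    ((C.filter (fun y => A y b)).filter (fun y => ¬ A y c)) rfl
    ⟨y0, (hmem y0).2 ⟨⟨hy0, hy0b⟩, hy0c⟩⟩ (hF.mono (Finset.filter_subset _ _)) hP2
  obtain ⟨⟨haC, hab⟩, hac⟩ := (hmem a).1 ha
  rcases hcon with hcon | hcon
  · exact ⟨a, haC, hab, hac, hcon a ha, fun y hy h1 h2 => hcon y ((hmem y).2 ⟨⟨hy, h1⟩, h2⟩)⟩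
  · exfalso
    have haa := hcon a ha
    obtain ⟨g, hg, m1, m2, m3, m4⟩ := hP a haC c hc (by tauto) (by tauto)
    have hga : ¬ A g a := by tauto
    have hgc : ¬ A g c := by tauto
    have hgb : A g b := (m4 b hb (by have := hs _ _ hbc; tauto)).2 hab
    exact hga (hs _ _ (hcon g ((hmem g).2 ⟨⟨hg, hgb⟩, hgc⟩)))

/-- steps (3), (4), (5): a minimal cylinder without full vertex -/
theorem core (hs : ∀ x y, A x y → A y x) (hP : Pairs A C)
    (h0 : ∀ w ∈ C, (∃ y ∈ C, A y w) → Free A (C.filter (fun y => A y w)))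
    (h0' : ∀ w ∈ C, (∃ y ∈ C, A y w) → Free A (C.filter (fun y => ¬ A y w)))
    (hp4 : ¬ Free A C) :
    ∃ a ∈ C, ∃ b ∈ C, ∃ c ∈ C, ∃ d ∈ C, P4 A a b c d ∧ ¬ A a a ∧ A b b ∧ A c c ∧ ¬ A d d ∧
      ∀ g ∈ C, ¬ Bad A a b c d g := by
  unfold Free at hp4
  push Not at hp4
  obtain ⟨p, hp, q, hq, r, hr, s, hs', hpqrs⟩ := hp4
  -- a vertex with a maximal neighbourhood
  obtain ⟨b, hb, hmax0⟩ := Finset.exists_max_image C
    (fun w => (C.filter (fun y => A y w)).card) ⟨p, hp⟩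
  have hmax : ∀ w ∈ C, (∀ y ∈ C, A y b → A y w) → ∀ y ∈ C, A y w → A y b := by
    intro w hw h1 y hy hyw
    have h2 : C.filter (fun y => A y b) ⊆ C.filter (fun y => A y w) := by
      intro z hz
      rw [Finset.mem_filter] at hz ⊢
      exact ⟨hz.1, h1 z hz.1 hz.2⟩
    have h3 := Finset.eq_of_subset_of_card_le h2 (hmax0 w hw)
    have h4 : y ∈ C.filter (fun y => A y w) := Finset.mem_filter.2 ⟨hy, hyw⟩
    rw [← h3, Finset.mem_filter] at h4
    exact h4.2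
  have hbne : ∃ y ∈ C, A y b := by
    have h1 := hmax0 q hq
    have h2 : 0 < (C.filter (fun y => A y q)).card :=
      Finset.card_pos.2 ⟨p, Finset.mem_filter.2 ⟨hp, hpqrs.1⟩⟩
    have h3 : 0 < (C.filter (fun y => A y b)).card := lt_of_lt_of_le h2 h1
    obtain ⟨y, hy⟩ := Finset.card_pos.1 h3
    exact ⟨y, (Finset.mem_filter.1 hy).1, (Finset.mem_filter.1 hy).2⟩
  have hbb : A b b := by
    by_contra hbb
    obtain ⟨y0, hy0, hy0b⟩ := hbne
    obtain ⟨x, hx, hxx, hxb, hxall⟩ := step1 hs hP h0 hb hbb ⟨y0, hy0, hs _ _ hy0b⟩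
    exact hbb (hmax x hx (fun y hy hyb => hs _ _ (hxall y hy (hs _ _ hyb))) b hb (hs _ _ hxb))
  have hFN := h0 b hb hbne
  have hFZ := h0' b hb hbne
  -- an edge between `N b` and the rest
  have hedge : ∃ y ∈ C, ∃ z ∈ C, A y b ∧ ¬ A z b ∧ A y z := by
    by_contra hno
    push Not at hno
    have hc1 : ∀ y ∈ C, ∀ z ∈ C, A y z → (A y b ↔ A z b) := by
      intro y hy z hz hyz
      constructor
      · intro h
        by_contra h'
        exact hno y hy z hz h h' hyz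
      · intro h
        by_contra h'
        exact hno z hz y hy h h' (hs _ _ hyz)
    have e1 := hc1 p hp q hq hpqrs.1
    have e2 := hc1 q hq r hr hpqrs.2.1
    have e3 := hc1 r hr s hs' hpqrs.2.2.1
    by_cases hpb : A p b
    · exact hFN p (Finset.mem_filter.2 ⟨hp, hpb⟩) q (Finset.mem_filter.2 ⟨hq, by tauto⟩) r
        (Finset.mem_filter.2 ⟨hr, by tauto⟩) s (Finset.mem_filter.2 ⟨hs', by tauto⟩) hpqrs
    · exact hFZ p (Finset.mem_filter.2 ⟨hp, hpb⟩) q (Finset.mem_filter.2 ⟨hq, by tauto⟩) r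
        (Finset.mem_filter.2 ⟨hr, by tauto⟩) s (Finset.mem_filter.2 ⟨hs', by tauto⟩) hpqrs
  -- the vertex `c₀`
  have hc0 : ∃ c ∈ C, ∃ z ∈ C, A c c ∧ A c b ∧ A c z ∧ ¬ A z b := by
    obtain ⟨y, hy, z, hz, hyb, hzb, hyz⟩ := hedge
    by_cases hyy : A y y
    · exact ⟨y, hy, z, hz, hyy, hyb, hyz, hzb⟩
    · obtain ⟨x, hx, hxx, hxy, hxall⟩ := step1 hs hP h0 hy hyy ⟨z, hz, hyz⟩
      exact ⟨x, hx, z, hz, hxx, hxall b hb hyb, hxall z hz hyz, hzb⟩
  obtain ⟨c0, hc0, z, hz, hc0c0, hc0b, hc0z, hzb⟩ := hc0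
  obtain ⟨d', hd', hd'c0, hd'b, hd'd', hd'iso⟩ := step2 hs hP h0 hc0 hb hbb hc0b
    ⟨z, hz, hs _ _ hc0z, hzb⟩
  obtain ⟨q', hq', hq'q', hq'd', hq'all⟩ := step1 hs hP h0 hd' hd'd' ⟨c0, hc0, hd'c0⟩
  have hq'b : A q' b := by
    by_contra h
    exact hd'iso q' hq' (hq'all c0 hc0 hd'c0) h (hs _ _ hq'd')
  -- the vertex `d`
  have hd : ∃ d ∈ C, ¬ A d d ∧ ¬ A d b ∧ (∃ y ∈ C, A d y) ∧ ∀ y ∈ C, A d y → A y b := by
    by_cases hall : ∀ y ∈ C, A d' y → A y b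
    · exact ⟨d', hd', hd'd', hd'b, ⟨c0, hc0, hd'c0⟩, hall⟩
    · push Not at hall
      obtain ⟨y0, hy0, hd'y0, hy0b⟩ := hall
      have hd'D : d' ∈ C.filter (fun y => ¬ A y b) := Finset.mem_filter.2 ⟨hd', hd'b⟩
      obtain ⟨K, hK, hd'K⟩ := exists_comp hs hd'D
      obtain ⟨f, hf, hfall⟩ := comp_full hs hK hFZ (pairs_neg hP hb) hd'K
        ⟨y0, Finset.mem_filter.2 ⟨hy0, hy0b⟩, hd'y0⟩
      obtain ⟨hfC, hfb⟩ := Finset.mem_filter.1 (hK.sub hf)
      have hff := hfall f hf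
      have hfd' := hfall d' hd'K
      obtain ⟨g, hg, m1, m2, m3, m4⟩ := hP f hfC b hb (by tauto) (by tauto)
      have hgg : ¬ A g g := by tauto
      have hgf : ¬ A g f := by tauto
      have hgb : ¬ A g b := by tauto
      have hgD : g ∈ C.filter (fun y => ¬ A y b) := Finset.mem_filter.2 ⟨hg, hgb⟩
      have hgK : g ∉ K := fun h => hgf (hs _ _ (hfall g h))
      refine ⟨g, hg, hgg, hgb, ⟨q', hq', ?_⟩, ?_⟩
      · have h1 : A f q' := hs _ _ (hq'all f hfC (hs _ _ hfd'))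
        exact (m4 q' hq' (by have := hs _ _ hq'b; tauto)).2 h1
      · intro y hy hgy
        by_contra hyb
        have hyD : y ∈ C.filter (fun y => ¬ A y b) := Finset.mem_filter.2 ⟨hy, hyb⟩
        have hby : ¬ A b y := fun h => hyb (hs _ _ h)
        by_cases hyK : y ∈ K
        · exact hK.off y hyK g hgD hgK (hs _ _ hgy)
        · have hfy : ¬ A f y := hK.off f hf y hyD hyK
          exact hfy ((m4 y hy (by tauto)).1 hgy)
  obtain ⟨d, hd, hdd, hdb, hdne, hdall⟩ := hd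
  -- the vertex `c`
  have hc : ∃ c ∈ C, A c c ∧ A c d ∧ ∀ y ∈ C, A d y → A c y := step1 hs hP h0 hd hdd hdne
  obtain ⟨c, hc, hcc, hcd, hcall⟩ := hc
  have hcb : A c b := hdall c hc (hs _ _ hcd)
  have hbc : A b c := hs _ _ hcb
  have hDne : ∃ y ∈ C, A y b ∧ ¬ A y c := by
    by_contra hno
    push Not at hno
    exact hdb (hmax c hc hno d hd (hs _ _ hcd))
  obtain ⟨a, ha, hab, hac, haa, haiso⟩ := step2 hs hP h0 hb hc hcc hbc hDne
  have had : ¬ A a d := fun h => hac (hs _ _ (hcall a ha (hs _ _ h)))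
  have hbd : ¬ A b d := fun h => hdb (hs _ _ h)
  refine ⟨a, ha, b, hb, c, hc, d, hd, ⟨hab, hbc, hcd, hac, had, hbd⟩, haa, hbb, hcc, hdd, ?_⟩
  intro g hg hbad
  rcases hbad with ⟨h1, h2, h3, h4⟩ | ⟨h1, h2, h3, h4⟩ | ⟨h1, h2, h3, h4⟩ | ⟨h1, h2, h3, h4⟩
  · exact haiso g hg h2 h3 (hs _ _ h1)
  · -- `g` sees exactly `a` and `c`
    have hFE := h0' d hd (by obtain ⟨y, hy, hdy⟩ := hdne; exact ⟨y, hy, hs _ _ hdy⟩)
    have hPE := pairs_neg hP hd
    have haE : a ∈ C.filter (fun y => ¬ A y d) := Finset.mem_filter.2 ⟨ha, had⟩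
    have hbE : b ∈ C.filter (fun y => ¬ A y d) := Finset.mem_filter.2 ⟨hb, hbd⟩
    have hgE : g ∈ C.filter (fun y => ¬ A y d) := Finset.mem_filter.2 ⟨hg, h4⟩
    obtain ⟨K, hK, haK⟩ := exists_comp hs haE
    have hbK : b ∈ K := by
      by_contra h
      exact hK.off a haK b hbE h hab
    have hgK : g ∈ K := by
      by_contra h
      exact hK.off a haK g hgE h (hs _ _ h1)
    obtain ⟨f, hf, hfall⟩ := comp_full hs hK hFE hPE haK ⟨b, hbE, hab⟩
    obtain ⟨hfC, hfd⟩ := Finset.mem_filter.1 (hK.sub hf)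
    have hfa := hfall a haK
    have hfb := hfall b hbK
    have hfg := hfall g hgK
    have hfc : A f c := by
      by_contra h
      exact haiso f hfC hfb h (hs _ _ hfa)
    have hv : ∃ v ∈ C, A d v ∧ ¬ A v f := by
      by_contra hno
      push Not at hno
      have h5 : ∀ y ∈ C, A y b → A y f := by
        intro y hy hyb
        by_cases hyd : A y d
        · exact hno y hy (hs _ _ hyd)
        · have hyE : y ∈ C.filter (fun y => ¬ A y d) := Finset.mem_filter.2 ⟨hy, hyd⟩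
          have hyK : y ∈ K := by
            by_contra h
            exact hK.off b hbK y hyE h (hs _ _ hyb)
          exact hs _ _ (hfall y hyK)
      exact h2 (hmax f hfC h5 g hg (hs _ _ hfg))
    obtain ⟨v, hv, hdv, hvf⟩ := hv
    have hvb := hdall v hv hdv
    have hvc := hs _ _ (hcall v hv hdv)
    refine h0 c hc ⟨b, hb, hbc⟩ f (Finset.mem_filter.2 ⟨hfC, hfc⟩) b
      (Finset.mem_filter.2 ⟨hb, hbc⟩) v (Finset.mem_filter.2 ⟨hv, hvc⟩) d
      (Finset.mem_filter.2 ⟨hd, hs _ _ hcd⟩) ?_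
    exact ⟨hfb, hs _ _ hvb, hs _ _ hdv, fun h => hvf (hs _ _ h), hfd, hbd⟩
  · have := hdall g hg (hs _ _ h4)
    have := hcall g hg (hs _ _ h4)
    exact h3 (hs _ _ this)
  · exact h2 (hdall g hg (hs _ _ h4))

end core

end Pool.Agent.H20.P3
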