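import Pool.Agent.H20.P3.Cyl
import Pool.Agent.H17.P3.Defs

set_option autoImplicit false

/-!
A relation with midpoints in which every path with loops `0110` splits has no induced path
(note 7046, MP_a46c6f_co).
-/

namespace Pool.Agent.H20.P3

open Classical
open Pool.Agent.H44.P4

variable {V : Type}

/-- `C` contains everything that agrees with it in every constant column -/
def Flat (A : V → V → Prop) (C : Finset V) : Prop :=
  ∀ x ∈ C, ∀ g, (∀ y, (∀ z ∈ C, (A z y ↔ A x y)) → (A g y ↔ A x y)) → g ∈ C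

theorem Flat.pos {A : V → V → Prop} {C : Finset V} (h : Flat A C) (w : V) :
    Flat A (C.filter (fun y => A y w)) := by
  intro x hx g hg
  obtain ⟨hxC, hxw⟩ := Finset.mem_filter.1 hx
  refine Finset.mem_filter.2 ⟨h x hxC g ?_, ?_⟩
  · intro y hy
    exact hg y (fun z hz => hy z (Finset.mem_filter.1 hz).1)
  · refine (hg w ?_).2 hxw
    intro z hz
    have := (Finset.mem_filter.1 hz).2
    tauto

theorem Flat.neg {A : V → V → Prop} {C : Finset V} (h : Flat A C) (w : V) :
    Flat A (C.filter (fun y => ¬ A y w)) := by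
  intro x hx g hg
  obtain ⟨hxC, hxw⟩ := Finset.mem_filter.1 hx
  refine Finset.mem_filter.2 ⟨h x hxC g ?_, ?_⟩
  · intro y hy
    exact hg y (fun z hz => hy z (Finset.mem_filter.1 hz).1)
  · intro hgw
    refine hxw ((hg w ?_).1 hgw)
    intro z hz
    have := (Finset.mem_filter.1 hz).2
    tauto

theorem free_univ [Fintype V] (A : V → V → Prop) (hs : ∀ x y, A x y → A y x)
    (hP : Pairs A Finset.univ)
    (h4 : ∀ a b c d, P4 A a b c d → ¬ A a a → A b b → A c c → ¬ A d d →
      ∃ g, Bad A a b c d g ∧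
        ∀ y, (A a y ↔ A b y) → (A b y ↔ A c y) → (A c y ↔ A d y) → (A g y ↔ A a y)) :
    Free A Finset.univ := by
  by_contra hnot
  obtain ⟨C, hC, hmin⟩ := Finset.exists_min_image
    ((Finset.univ : Finset (Finset V)).filter (fun C => Flat A C ∧ ¬ Free A C)) Finset.card
    ⟨Finset.univ, Finset.mem_filter.2 ⟨Finset.mem_univ _, fun _ _ _ _ => Finset.mem_univ _, hnot⟩⟩
  obtain ⟨-, hCflat, hCfree⟩ := Finset.mem_filter.1 hC
  have hsmall : ∀ D : Finset V, Flat A D → D ⊆ C → (∃ y ∈ C, y ∉ D) → Free A D := by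
    intro D hD hDC ⟨y, hy, hyD⟩
    by_contra hDF
    have h1 := hmin D (Finset.mem_filter.2 ⟨Finset.mem_univ _, hD, hDF⟩)
    have h2 : D.card < C.card := Finset.card_lt_card ⟨hDC, fun h => hyD (h hy)⟩
    omega
  have hPC : Pairs A C := by
    intro u hu v hv h1 h2
    obtain ⟨g, -, m1, m2, m3, m4'⟩ := hP u (Finset.mem_univ _) v (Finset.mem_univ _) h1 h2
    refine ⟨g, hCflat u hu g ?_, m1, m2, m3, fun y _ => m4' y (Finset.mem_univ _)⟩
    intro y hy
    exact m4' y (Finset.mem_univ _) (by have := hy v hv; tauto)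
  have hN : ∀ w, (∃ y ∈ C, ¬ A y w) → Free A (C.filter (fun y => A y w)) := by
    intro w ⟨y, hy, hyw⟩
    exact hsmall _ (hCflat.pos w) (Finset.filter_subset _ _)
      ⟨y, hy, fun h => hyw (Finset.mem_filter.1 h).2⟩
  have hZ : ∀ w, (∃ y ∈ C, A y w) → Free A (C.filter (fun y => ¬ A y w)) := by
    intro w ⟨y, hy, hyw⟩
    exact hsmall _ (hCflat.neg w) (Finset.filter_subset _ _)
      ⟨y, hy, fun h => (Finset.mem_filter.1 h).2 hyw⟩
  by_cases hfull : ∃ f ∈ C, ∀ y ∈ C, A y f
  · obtain ⟨f, hf, hfall⟩ := hfull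
    have hs' : ∀ x y, ¬ A x y → ¬ A y x := fun x y h h' => h (hs _ _ h')
    obtain ⟨a, ha, b, hb, c, hc, d, hd, hp, haa, hbb, hcc, hdd, hbad⟩ :=
      core (A := fun x y => ¬ A x y) (C := C) hs' hPC.compl
        (by
          intro w hw _
          refine ((hZ w ⟨f, hf, hs _ _ (hfall w hw)⟩).compl hs).mono ?_
          intro y hy
          simp only [Finset.mem_filter] at hy ⊢
          exact hy)
        (by
          intro w hw hy
          refine ((hN w hy).compl hs).mono ?_
          intro y hy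
          simp only [Finset.mem_filter, not_not] at hy ⊢
          exact hy)
        (by
          intro h
          apply hCfree
          intro a ha b hb c hc d hd hp
          exact h b hb d hd a ha c hc (hp.to_compl hs))
    obtain ⟨g, hg, hgy⟩ := h4 b d a c (hp.compl hs) hbb (not_not.1 hdd) (not_not.1 haa) hcc
    have hgC : g ∈ C := by
      refine hCflat b hb g ?_
      intro y hy
      have h1 := hy a ha
      have h2 := hy c hc
      have h3 := hy d hd
      exact hgy y (by tauto) (by tauto) (by tauto)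
    refine hbad g hgC ?_
    unfold Bad at hg ⊢
    tauto
  · push Not at hfull
    obtain ⟨a, ha, b, hb, c, hc, d, hd, hp, haa, hbb, hcc, hdd, hbad⟩ :=
      core (A := A) (C := C) hs hPC (fun w hw _ => hN w (hfull w hw)) (fun w _ h => hZ w h) hCfree
    obtain ⟨g, hg, hgy⟩ := h4 a b c d hp haa hbb hcc hdd
    refine hbad g (hCflat a ha g ?_) hg
    intro y hy
    have h1 := hy b hb
    have h2 := hy c hc
    have h3 := hy d hd
    exact hgy y (by tauto) (by tauto) (by tauto)

/-- helper44's form -/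
theorem Dict.free {V : Type} [Fintype V] {e : V} {H : V → V → ZMod 2} {A : V → V → Prop}
    (h : Pool.Agent.H44.P4.Dict e H A) : Free A Finset.univ :=
  free_univ A h.sym (fun u _ v _ h1 h2 => by
    obtain ⟨g, hg⟩ := h.pairs u v h1 h2
    exact ⟨g, Finset.mem_univ _, hg⟩) h.p4

theorem zcase : ∀ a b : ZMod 2, a ≠ b ↔ ¬ (a = 1 ↔ b = 1) := by decide

theorem zone : ∀ a : ZMod 2, a ≠ 1 → a = 0 := by decide

/-- helper17's form -/
theorem p3 : Pool.Agent.H17.P3.P3 := by
  intro X hfin M hsym hpairs hsplit a b c d hp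
  have := Fintype.ofFinite X
  have hne : ∀ x y z w : X, M x y ≠ M z w ↔ ¬ (M x y = 1 ↔ M z w = 1) := fun x y z w => zcase _ _
  have heq : ∀ x y z w : X, M x y = M z w ↔ (M x y = 1 ↔ M z w = 1) := by
    intro x y z w
    have := hne x y z w
    tauto
  have hF : Free (fun x y => M x y = 1) (Finset.univ : Finset X) := by
    apply free_univ
    · intro x y h
      rw [hsym]
      exact h
    · intro u _ v _ h1 h2
      obtain ⟨g, m1, m2, m3, m4⟩ := hpairs u v ((heq _ _ _ _).2 h1) ((hne _ _ _ _).2 (by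
        intro h
        simp only at h2
        tauto))
      have n1 := (hne _ _ _ _).1 m1
      have n2 := (heq _ _ _ _).1 m2
      have n3 := (heq _ _ _ _).1 m3
      refine ⟨g, Finset.mem_univ _, ?_, ?_, ?_, ?_⟩
      · simp only
        tauto
      · simp only
        tauto
      · simp only
        tauto
      · intro y _ hy
        exact (heq _ _ _ _).1 (m4 y ((heq _ _ _ _).2 hy))
    · intro a b c d hp4 haa hbb hcc hdd
      obtain ⟨h1, h2, h3, h4, h5, h6⟩ := hp4
      obtain ⟨g, hg, hgy⟩ := hsplit a b c d ⟨h1, h2, h3, zone _ h4, zone _ h5, zone _ h6⟩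
        (zone _ haa) hbb hcc (zone _ hdd)
      refine ⟨g, ?_, ?_⟩
      · obtain ⟨g1, g2⟩ := hg
        have n1 := (hne _ _ _ _).1 g1
        have n2 := (hne _ _ _ _).1 g2
        unfold Pool.Agent.H44.P4.Bad
        simp only
        tauto
      · intro y y1 y2 y3
        refine (heq _ _ _ _).1 (hgy y ((heq _ _ _ _).2 y1) ((heq _ _ _ _).2 ?_)
          ((heq _ _ _ _).2 ?_))
        · exact y1.trans y2
        · exact (y1.trans y2).trans y3
  have h0 : ∀ x y : X, M x y = 0 → ¬ M x y = 1 := by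
    intro x y h
    rw [h]
    decide
  exact hF a (Finset.mem_univ _) b (Finset.mem_univ _) c (Finset.mem_univ _) d (Finset.mem_univ _)
    ⟨hp.ab, hp.bc, hp.cd, h0 _ _ hp.ac, h0 _ _ hp.ad, h0 _ _ hp.bd⟩

end Pool.Agent.H20.P3
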